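import Pool.Agent.Helper74.HG.GoalsC

/-!
# Packet HG-ZPR (MP_aa7fc1_ag): the topological zeta function of a product in separate variables
-/

namespace Pool.Agent.Helper7.HG.ZPR

open MvPolynomial Pool.Agent.Helper74.HG

/-! ### lists -/

/-- all products of elements of two lists -/
def lmul {α : Type} (μ : α → α → α) (M M' : List α) : List α :=
  M.flatMap fun a => M'.map fun b => μ a b

theorem map_sum_mul {α R : Type} [CommSemiring R] (μ : α → α → α) (F : α → R)
    (hF : ∀ a b, F (μ a b) = F a * F b) (M M' : List α) :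
    ((lmul μ M M').map F).sum = (M.map F).sum * (M'.map F).sum := by
  induction M with
  | nil => simp [lmul]
  | cons a M ih =>
    have h1 : lmul μ (a :: M) M' = (M'.map fun b => μ a b) ++ lmul μ M M' := rfl
    have h2 : ((M'.map fun b => μ a b).map F).sum = F a * (M'.map F).sum := by
      rw [List.map_map]
      have : (F ∘ fun b => μ a b) = fun b => F a * F b := funext fun b => hF a b
      rw [this, List.sum_map_mul_left]
    rw [h1, List.map_append, List.sum_append, h2, ih, List.map_cons, List.sum_cons, add_mul]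

theorem lmul_map {α β : Type} (p : α → β) (μ : α → α → α) (ν : β → β → β)
    (h : ∀ a b, p (μ a b) = ν (p a) (p b)) (M M' : List α) :
    (lmul μ M M').map p = lmul ν (M.map p) (M'.map p) := by
  induction M with
  | nil => rfl
  | cons a M ih =>
    have h1 : lmul μ (a :: M) M' = (M'.map fun b => μ a b) ++ lmul μ M M' := rfl
    have h2 : lmul ν ((a :: M).map p) (M'.map p) =
      ((M'.map p).map fun b => ν (p a) b) ++ lmul ν (M.map p) (M'.map p) := rfl
    rw [h1, h2, List.map_append, ih, List.map_map, List.map_map]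
    congr 1
    exact List.map_congr_left fun b _ => h a b

theorem mem_lmul {α : Type} {μ : α → α → α} {M M' : List α} {c : α} (h : c ∈ lmul μ M M') :
    ∃ a ∈ M, ∃ b ∈ M', c = μ a b := by
  obtain ⟨a, ha, hc⟩ := List.mem_flatMap.mp h
  obtain ⟨b, hb, rfl⟩ := List.mem_map.mp hc
  exact ⟨a, ha, b, hb, rfl⟩

/-- the product of two strata -/
def mS (S S' : Str) : Str := (S.1 * S'.1, S.2 ++ S'.2)

/-- the product of two strata with weights -/
def mM (T T' : (ℕ → ℂ) × Str) : (ℕ → ℂ) × Str := (fun e => T.1 e * T'.1 e, mS T.2 T'.2)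

theorem ratS_mul (S S' : Str) : ratS (mS S S') = ratS S * ratS S' := by
  unfold ratS mS
  rw [List.map_append, List.prod_append]
  push_cast
  ring

/-! ### weights -/

theorem ev_prod {c c' : ℕ → ℂ} {v v' : ℤ} (h : ExpVal c v) (h' : ExpVal c' v') :
    ExpVal (fun e => c e * c' e) (v * v') := by
  obtain ⟨r, m, a, ha, hc, hv⟩ := h
  obtain ⟨r', m', a', ha', hc', hv'⟩ := h'
  have hsum : ∀ {R : Type} [CommSemiring R] (F : Fin r → R) (G : Fin r' → R),
      (∑ i, F i) * ∑ j, G j = ∑ k : Fin (r * r'),
        F (finProdFinEquiv.symm k).1 * G (finProdFinEquiv.symm k).2 := by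
    intro R _ F G
    rw [Finset.sum_mul_sum, ← Fintype.sum_prod_type']
    exact (Equiv.sum_comp finProdFinEquiv.symm fun p : Fin r × Fin r' => F p.1 * G p.2).symm
  refine ⟨r * r', fun k => m (finProdFinEquiv.symm k).1 * m' (finProdFinEquiv.symm k).2,
    fun k => a (finProdFinEquiv.symm k).1 * a' (finProdFinEquiv.symm k).2,
    fun k => mul_ne_zero (ha _) (ha' _), fun e he => ?_, ?_⟩
  · dsimp only
    rw [hc e he, hc' e he, hsum]
    refine Finset.sum_congr rfl fun k _ => ?_
    push_cast
    ring
  · rw [hv, hv', hsum]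

/-! ### one field -/

theorem form_mul (hp : ZPK) {K : Type} [Field K] [Finite K] {σ τ : Type} [Fintype σ] [Fintype τ]
    {f : MvPolynomial σ K} {g : MvPolynomial τ K} {L L' : List Str}
    (h : Form K f L) (h' : Form K g L') :
    Form K (rename Sum.inl f * rename Sum.inr g) (lmul mS L L') := by
  obtain ⟨M, hM, hE, hc⟩ := h
  obtain ⟨M', hM', hE', hc'⟩ := h'
  refine ⟨lmul mM M M', ?_, ?_, ?_⟩
  · rw [lmul_map Prod.snd mM mS (fun _ _ => rfl), hM, hM']
  · intro T hT
    obtain ⟨a, ha, b, hb, rfl⟩ := mem_lmul hT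
    exact ev_prod (hE a ha) (hE' b hb)
  · intro E _ _ _ m
    have h1 : map (algebraMap K E) (rename Sum.inl f * rename Sum.inr g :
        MvPolynomial (σ ⊕ τ) K) =
        rename Sum.inl (map (algebraMap K E) f) * rename Sum.inr (map (algebraMap K E) g) := by
      rw [map_mul, map_rename, map_rename]
    rw [h1, hp E (map (algebraMap K E) f) (map (algebraMap K E) g) m]
    have h2 : ∀ T T' : (ℕ → ℂ) × Str,
        (PowerSeries.C ((mM T T').1 (Module.finrank K E)) *
          ((mM T T').2.2.map (fac (Nat.card E))).prod : PowerSeries ℂ) =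
        (PowerSeries.C (T.1 (Module.finrank K E)) * (T.2.2.map (fac (Nat.card E))).prod) *
        (PowerSeries.C (T'.1 (Module.finrank K E)) * (T'.2.2.map (fac (Nat.card E))).prod) := by
      intro T T'
      unfold mM mS
      dsimp only
      rw [List.map_append, List.prod_append, map_mul]
      ring
    rw [map_sum_mul mM _ h2, PowerSeries.coeff_mul]
    refine Finset.sum_congr rfl fun p _ => ?_
    rw [hc E p.1, hc' E p.2]

theorem inc_comp {A B : Subring ℂ} (h : A ≤ B) :
    B.subtype.comp (Subring.inclusion h) = A.subtype := by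
  apply RingHom.ext
  intro x
  rfl

theorem t (hp : ZPK) : ZPR := by
  classical
  intro σ τ _ _ f g Z Z' hZ hZ'
  obtain ⟨s, p, L, hp1, hL, hF, rfl⟩ := hZ
  obtain ⟨s', p', L', hp1', hL', hF', rfl⟩ := hZ'
  have i1 : Rg s ≤ Rg (s ∪ s') :=
    Subring.closure_mono (by rw [Finset.coe_union]; exact Set.subset_union_left)
  have i2 : Rg s' ≤ Rg (s ∪ s') :=
    Subring.closure_mono (by rw [Finset.coe_union]; exact Set.subset_union_right)
  refine ⟨s ∪ s', rename Sum.inl (map (Subring.inclusion i1) p) *
    rename Sum.inr (map (Subring.inclusion i2) p'), lmul mS L L', ?_, ?_, ?_, ?_⟩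
  · rw [map_mul, map_rename, map_rename, map_map, map_map]
    rw [inc_comp i1, inc_comp i2, hp1, hp1']
  · intro S hS d hd
    obtain ⟨a, ha, b, hb, rfl⟩ := mem_lmul hS
    rcases List.mem_append.mp hd with h | h
    · exact hL a ha d h
    · exact hL' b hb d h
  · intro K _ _ ψ
    rw [map_mul, map_rename, map_rename, map_map, map_map]
    exact form_mul hp (hF K (ψ.comp (Subring.inclusion i1)))
      (hF' K (ψ.comp (Subring.inclusion i2)))
  · exact (map_sum_mul mS ratS ratS_mul L L').symm

end Pool.Agent.Helper7.HG.ZPR
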